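import Mathlib
import Pool.Agent.Lib.FOLD.BZ
import Pool.Agent.Lib.FOLD.TZ

/-!
# A lower bound for the largest volume of perimeter-halving foldings

A convex polygon with 34 vertices (a strip with two opposite corners rounded off) folds to a polyhedron with 18 vertices
and 32 faces of more than `80 %` of the volume of the ball of the same surface area.
-/

set_option autoImplicit false

open MeasureTheory Set Filter Topology Metric
open scoped MeasureTheory ENNReal

namespace Pool.Agent.Results.MP_0324b4_co.LowerBound

open Pool.Agent.Lib.FOLD

/-- Some convex region of area `1` folds to volume at least `2 / (15 √π)`. -/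
theorem result : ∃ (C : Set E2) (L : ℝ) (γ : ℝ → E2) (P : Set E3), Folding C L γ P ∧ volume C = 1 ∧
    ENNReal.ofReal (2 / (15 * √Real.pi)) ≤ volume P := by
  obtain ⟨C, L, γ, Q, hF, hC, hV⟩ := big_fold
  exact ⟨C, L, γ, Q, folding_of_pl hF, hC, hV⟩

end Pool.Agent.Results.MP_0324b4_co.LowerBound
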