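import Mathlib
import Pool.Agent.Lib.FOLD.FinB
import Pool.Agent.Lib.FOLD.Dir

/-!
# The maximum volume of perimeter-halving foldings is attained

Among all perimeter-halving foldings of all convex regions of area `1` there is one of maximal volume.
-/

set_option autoImplicit false

open MeasureTheory Set Filter Topology Metric
open scoped MeasureTheory ENNReal

namespace Pool.Agent.Results.MP_0324b4_co.MaxAttained

open Pool.Agent.Lib.FOLD

/-- There is a folding of a convex region of area `1` whose body has the largest volume among all foldings of convex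
regions of area `1`; its volume is positive, and the body carries an area-preserving folding map. -/
theorem result : ∃ (C : Set E2) (L : ℝ) (γ : ℝ → E2) (P : Set E3),
    Folding C L γ P ∧ volume C = 1 ∧ 0 < volume P ∧
    (∃ f : E2 → E3, LipschitzWith 1 f ∧ f '' C = frontier P ∧
      (∀ s ∈ Icc (0 : ℝ) L, f (γ s) = f (γ (L - s))) ∧ μH[2] (frontier P) = μH[2] C) ∧
    ∀ (C' : Set E2) (L' : ℝ) (γ' : ℝ → E2) (P' : Set E3), Folding C' L' γ' P' → volume C' = 1 →
      volume P' ≤ volume P := by
  obtain ⟨C, L, γ, P, hF, hC, hV, hmax⟩ := attained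
  have hpos : 0 < volume P := by
    refine lt_of_lt_of_le ?_ hV
    rw [ENNReal.ofReal_pos]
    positivity
  refine ⟨C, L, γ, P, hF, hC, hpos, direct_map hF ?_, hmax⟩
  by_contra hne
  rw [Set.not_nonempty_iff_eq_empty] at hne
  have hcvx : Convex ℝ P := hF.2.2.2.1
  have hcl : IsClosed P := hF.2.2.1.isClosed
  have h0 : volume (frontier P) = 0 := hcvx.addHaar_frontier volume
  have h1 : frontier P = P := by rw [hcl.frontier_eq, hne, sdiff_empty]
  rw [h1] at h0
  exact hpos.ne' h0

end Pool.Agent.Results.MP_0324b4_co.MaxAttained
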