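import Mathlib
import Pool.Agent.Lib.FOLD.FinC
import Pool.Agent.Lib.FOLD.TZ

/-!
# Perimeter-halving foldings of long convex regions

The largest volume of a folding of a convex region of area `1` and diameter at least `R` tends, for `R → ∞`, to the volume
`1/√(216√3)` of the regular tetrahedron of surface area `1`.
-/

set_option autoImplicit false

open MeasureTheory Set Filter Topology Metric
open scoped MeasureTheory ENNReal

namespace Pool.Agent.Results.MP_0324b4_co.ThinRegions

open Pool.Agent.Lib.FOLD

/-- Long regions of area `1` fold to volume at most `1/√(216√3) + ε`, and arbitrarily long regions of area `1` fold to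
volume exactly `1/√(216√3)`, the volume of the regular tetrahedron of surface area `1`. -/
theorem result :
    (∀ ε : ℝ, 0 < ε → ∃ R : ℝ, ∀ (C : Set E2) (L : ℝ) (γ : ℝ → E2) (P : Set E3), Folding C L γ P →
      volume C = 1 → R ≤ diam C → volume P ≤ ENNReal.ofReal (1 / √(216 * √3) + ε)) ∧
    (∀ R : ℝ, ∃ (C : Set E2) (L : ℝ) (γ : ℝ → E2) (P : Set E3), Folding C L γ P ∧ volume C = 1 ∧
      R ≤ diam C ∧ volume P = ENNReal.ofReal (1 / √(216 * √3))) := by
  refine ⟨fun ε hε => thin_general hε, fun R => ?_⟩
  obtain ⟨C, L, γ, Q, hF, hC, hR, hV⟩ := thin_exact R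
  exact ⟨C, L, γ, Q, folding_of_pl hF, hC, hR, hV⟩

end Pool.Agent.Results.MP_0324b4_co.ThinRegions
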