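import Mathlib
import Pool.Agent.Lib.FOLD.KK

/-!
# An upper bound for the volume of perimeter-halving foldings

Every perimeter-halving folding of a convex region of area `1` has volume at most `1/√(27√2π)`, which is less than `97.1 %` of
the volume `1/(6√π)` of the ball of surface area `1`.
-/

set_option autoImplicit false

open MeasureTheory Set Filter Topology Metric
open scoped MeasureTheory ENNReal

namespace Pool.Agent.Results.MP_0324b4_co.UpperBound

open Pool.Agent.Lib.FOLD

/-- Every folding of a convex region of area `1` has volume at most `1/√(27√2π)`. -/
theorem result (C : Set E2) (L : ℝ) (γ : ℝ → E2) (P : Set E3) (h : Folding C L γ P) (hA : volume C = 1) :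
    volume P ≤ ENNReal.ofReal (1 / √(27 * √2 * Real.pi)) :=
  upper h hA

end Pool.Agent.Results.MP_0324b4_co.UpperBound
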